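import Pool.Agent.N625.AP.Defs
import Pool.Agent.R347.LW.Dich

/-!
# Approximable numbers: comparison with the library
-/

set_option autoImplicit false

namespace Pool.Agent.N625.AP

theorem tower_eq : tower = Pool.Agent.R347.LW.tow := by
  funext h q
  induction h with
  | zero => rfl
  | succ h ih => rw [tower, Pool.Agent.R347.LW.tow, ih]

theorem approximable_iff (q : ℕ → ℕ) (z : ℂ) : Approximable q z ↔ Pool.Agent.R347.LW.Appr q z := by
  unfold Approximable Pool.Agent.R347.LW.Appr
  rw [tower_eq]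
  rfl

theorem rationallyApproximable_iff (q : ℕ → ℕ) (x : ℝ) :
    RationallyApproximable q x ↔ Pool.Agent.R347.LW.RAppr q x := by
  unfold RationallyApproximable Pool.Agent.R347.LW.RAppr
  rw [tower_eq]

theorem e_eq : e = Pool.Agent.R347.LW.eT := by
  funext k
  induction k with
  | zero => rfl
  | succ k ih => rw [e, Pool.Agent.R347.LW.eT, ih, tower_eq]

theorem q₀_eq : q₀ = Pool.Agent.R347.LW.qT := by
  funext k
  rw [q₀, Pool.Agent.R347.LW.qT, e_eq]

theorem number_eq : number = Pool.Agent.R347.LW.xiT := by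
  funext A
  rw [number, Pool.Agent.R347.LW.xiT]
  refine tsum_congr fun k => ?_
  have h1 : 1 / (q₀ k : ℝ) = (1 / 2 : ℝ) ^ Pool.Agent.R347.LW.eT k := by
    rw [q₀, e_eq]
    push_cast
    rw [one_div, one_div, inv_pow]
  by_cases h : k ∈ A
  · rw [Set.indicator_of_mem h, Pool.Agent.R347.LW.trT_of_mem h, h1]
  · rw [Set.indicator_of_notMem h, Pool.Agent.R347.LW.trT_of_notMem h]

theorem fields {q : ℕ → ℕ} (hq : ∀ k, 2 ≤ q k) :
    Fields q (Pool.Agent.R347.LW.UK hq) (Pool.Agent.R347.LW.UR hq) where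
  mem_K z := (approximable_iff q z).symm
  mem_R x := (rationallyApproximable_iff q x).symm
  closed := Pool.Agent.R347.LW.UK_closed hq
  le _ hx := Pool.Agent.R347.LW.RAppr.appr hq hx

theorem fields_eq {q : ℕ → ℕ} (hq : ∀ k, 2 ≤ q k) {K : IntermediateField ℚ ℂ}
    {R : IntermediateField ℚ ℝ} (h : Fields q K R) :
    K = Pool.Agent.R347.LW.UK hq ∧ R = Pool.Agent.R347.LW.UR hq := by
  constructor
  · ext z
    rw [h.mem_K, approximable_iff]
    rfl
  · ext x
    rw [h.mem_R, rationallyApproximable_iff]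
    rfl

theorem large : Large := by
  refine ⟨fun q hq => ⟨_, _, fields hq⟩, ?_, fun A => ?_, ?_, fun K R hK => ?_⟩
  · intro k
    rw [q₀_eq]
    exact Pool.Agent.R347.LW.two_le_qT k
  · rw [rationallyApproximable_iff, q₀_eq, number_eq]
    exact Pool.Agent.R347.LW.xiT_rappr A
  · rw [number_eq]
    exact Pool.Agent.R347.LW.xiT_injective
  · rw [q₀_eq] at hK
    rw [(fields_eq Pool.Agent.R347.LW.two_le_qT hK).1]
    exact Pool.Agent.R347.LW.UK_trdeg _

end Pool.Agent.N625.AP
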