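import Pool.Agent.R347.LW.Ex2

/-!
# Approximable numbers

The definitions of `MP_209724_lc.SchanuelOnSubspaces` (starting files).
-/

set_option autoImplicit false

namespace Pool.Agent.N625.AP

/-- The `h`-fold iterate of `n ↦ 2 ^ n`. -/
def tower : ℕ → ℕ → ℕ
  | 0, q => q
  | h + 1, q => 2 ^ tower h q

/-- `a` is a zero of a nonzero polynomial over `ℤ` of degree at most `N` whose coefficients have absolute
value at most `N`. -/
def Bounded (N : ℕ) (a : ℂ) : Prop :=
  ∃ P : Polynomial ℤ, P ≠ 0 ∧ P.natDegree ≤ N ∧ (∀ n, |P.coeff n| ≤ N) ∧ Polynomial.aeval a P = 0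

/-- For some `h` and every `κ`, for all large `k` the number `z` has an algebraic approximation of
complexity at most `tower h (q k)` and with an error of at most `1 / tower κ (q k)`. -/
def Approximable (q : ℕ → ℕ) (z : ℂ) : Prop :=
  ∃ h : ℕ, ∀ κ : ℕ, ∃ k₀ : ℕ, ∀ k ≥ k₀, ∃ a : ℂ, Bounded (tower h (q k)) a ∧
    ‖z - a‖ ≤ ((tower κ (q k) : ℕ) : ℝ)⁻¹

/-- For some `h` and every `κ`, for all large `k` the real number `x` has a rational approximation with a
denominator at most `tower h (q k)` and with an error of at most `1 / tower κ (q k)`. -/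
def RationallyApproximable (q : ℕ → ℕ) (x : ℝ) : Prop :=
  ∃ h : ℕ, ∀ κ : ℕ, ∃ k₀ : ℕ, ∀ k ≥ k₀, ∃ (u : ℤ) (v : ℕ), 1 ≤ v ∧ v ≤ tower h (q k) ∧
    |x - u / v| ≤ ((tower κ (q k) : ℕ) : ℝ)⁻¹

/-- The exponents `e_0 = 1`, `e_(k + 1) = tower (k + 2) (e_k)`. -/
def e : ℕ → ℕ
  | 0 => 1
  | k + 1 => tower (k + 2) (e k)

/-- The explicit sequence `q_k = 2 ^ e_k`. -/
def q₀ (k : ℕ) : ℕ := 2 ^ e k

/-- The sum of the numbers `1 / q_k` over the elements `k` of the set `A`. -/
noncomputable def number (A : Set ℕ) : ℝ :=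
  ∑' k, Set.indicator A (fun k => 1 / (q₀ k : ℝ)) k

/-- The fields `K` and `R` of the approximable and of the rationally approximable numbers of the
sequence `q`; `K` is algebraically closed and contains `R`. -/
structure Fields (q : ℕ → ℕ) (K : IntermediateField ℚ ℂ) (R : IntermediateField ℚ ℝ) : Prop where
  mem_K : ∀ z, z ∈ K ↔ Approximable q z
  mem_R : ∀ x, x ∈ R ↔ RationallyApproximable q x
  closed : IsAlgClosed K
  le : ∀ x ∈ R, (x : ℂ) ∈ K

/-- For every sequence `q` of integers `≥ 2` the fields `K`, `R` exist; for the sequence `q₀` the field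
`K` has transcendence degree the cardinality of the continuum, and the different numbers `number A`,
`A ⊆ ℕ`, are all in `R`. -/
def Large : Prop :=
  (∀ q : ℕ → ℕ, (∀ k, 2 ≤ q k) → ∃ (K : IntermediateField ℚ ℂ) (R : IntermediateField ℚ ℝ),
    Fields q K R) ∧ (∀ k, 2 ≤ q₀ k) ∧ (∀ A : Set ℕ, RationallyApproximable q₀ (number A)) ∧
  Function.Injective number ∧
  ∀ (K : IntermediateField ℚ ℂ) (R : IntermediateField ℚ ℝ), Fields q₀ K R →
    Algebra.trdeg ℚ K = Cardinal.continuum

end Pool.Agent.N625.AP
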